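import Mathlib

/-!
# There are no Λ-singular functions

For a proper Λ-sequence no continuous function of bounded Λ-variation other than a
Λ-absolutely continuous one has Wiener Λ-variation equal to its Λ-variation.
-/

set_option autoImplicit false

open Filter Topology Set Finset
open scoped ENNReal

namespace Pool.Agent.Results.MP_2872ab_an.NoSingular

/-- `L` is a Λ-sequence: a non-decreasing sequence of positive reals with `∑ 1 / λ_i = ∞`
(indexed from `0`). -/
def IsLambdaSeq (L : ℕ → ℝ) : Prop :=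
  Monotone L ∧ (∀ i, 0 < L i) ∧ ¬ Summable (fun i => 1 / L i)

/-- The Λ-sequence is proper: `λ_i → ∞`. -/
def IsProper (L : ℕ → ℝ) : Prop := Tendsto L atTop atTop

/-- A (finite or countable) family of non-overlapping closed subintervals `[s i, t i]` of `[a, b]`,
indexed so that `|f (t i) - f (s i)|` is non-increasing. Degenerate intervals `s i = t i` are
allowed (they contribute `0`), so finite families are included. -/
structure IsFamily (a b : ℝ) (f : ℝ → ℝ) (s t : ℕ → ℝ) : Prop where
  left : ∀ i, a ≤ s i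
  le : ∀ i, s i ≤ t i
  right : ∀ i, t i ≤ b
  disj : ∀ i j, i ≠ j → Disjoint (Ioo (s i) (t i)) (Ioo (s j) (t j))
  anti : Antitone (fun i => |f (t i) - f (s i)|)

/-- `σ_Λ(f, I) = ∑ |f(I_i)| / λ_i`, an element of `[0, ∞]`. -/
noncomputable def sigma (L : ℕ → ℝ) (f : ℝ → ℝ) (s t : ℕ → ℝ) : ℝ≥0∞ :=
  ∑' i, ENNReal.ofReal (|f (t i) - f (s i)| / L i)

/-- The Λ-variation `V_Λ(f)` of `f` on `[a, b]`. -/
noncomputable def V (a b : ℝ) (L : ℕ → ℝ) (f : ℝ → ℝ) : ℝ≥0∞ :=
  ⨆ (s : ℕ → ℝ) (t : ℕ → ℝ) (_ : IsFamily a b f s t), sigma L f s t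

/-- The supremum of `σ_Λ(f, I)` over the families of intervals of length at most `δ`. -/
noncomputable def Vmesh (a b : ℝ) (L : ℕ → ℝ) (f : ℝ → ℝ) (δ : ℝ) : ℝ≥0∞ :=
  ⨆ (s : ℕ → ℝ) (t : ℕ → ℝ) (_ : IsFamily a b f s t) (_ : ∀ i, t i - s i ≤ δ), sigma L f s t

/-- The Wiener Λ-variation `W_Λ(f)`: the limit as `δ → 0+` of `Vmesh δ`; as `Vmesh δ` is
non-decreasing in `δ`, this is the infimum over `δ > 0`. -/
noncomputable def W (a b : ℝ) (L : ℕ → ℝ) (f : ℝ → ℝ) : ℝ≥0∞ :=
  ⨅ (δ : ℝ) (_ : 0 < δ), Vmesh a b L f δ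

/-- `f` is of bounded Λ-variation on `[a, b]`. -/
def MemBV (a b : ℝ) (L : ℕ → ℝ) (f : ℝ → ℝ) : Prop := V a b L f < ⊤

/-- `f` is continuous in Λ-variation: `V_{Λ_(m)}(f) → 0`, where `Λ_(m)` is `Λ` with its first `m`
terms removed. -/
def MemBVc (a b : ℝ) (L : ℕ → ℝ) (f : ℝ → ℝ) : Prop :=
  MemBV a b L f ∧ Tendsto (fun m : ℕ => V a b (fun i => L (i + m)) f) atTop (𝓝 0)

/-- `f` is Λ-absolutely continuous: continuous on `[a, b]`, of bounded Λ-variation and continuous
in Λ-variation. -/
def MemAC (a b : ℝ) (L : ℕ → ℝ) (f : ℝ → ℝ) : Prop :=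
  ContinuousOn f (Icc a b) ∧ MemBVc a b L f

/-- `f` is Λ-singular: continuous, of bounded Λ-variation, not Λ-absolutely continuous and
`W_Λ(f) = V_Λ(f)`. -/
def IsSingular (a b : ℝ) (L : ℕ → ℝ) (f : ℝ → ℝ) : Prop :=
  (ContinuousOn f (Icc a b) ∧ MemBV a b L f) ∧ ¬ MemAC a b L f ∧ W a b L f = V a b L f

/-- The Shao-Sablin index of `Λ`. -/
noncomputable def shaoSablin (L : ℕ → ℝ) : ℝ :=
  limsup (fun n : ℕ => (∑ i ∈ range (2 * n), (L i)⁻¹) / ∑ i ∈ range n, (L i)⁻¹) atTop

/-- `W` really is the limit of `Vmesh δ` as `δ → 0+`. -/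
theorem tendsto_Vmesh (a b : ℝ) (L : ℕ → ℝ) (f : ℝ → ℝ) :
    Tendsto (Vmesh a b L f) (𝓝[>] 0) (𝓝 (W a b L f)) := by
  have hmono : Monotone (Vmesh a b L f) := by
    intro x y hxy
    unfold Vmesh
    refine iSup_mono fun s => iSup_mono fun t => iSup_mono fun h => ?_
    refine iSup_le fun h' => le_iSup (fun (_ : ∀ i, t i - s i ≤ y) => sigma L f s t)
      (fun i => (h' i).trans hxy)
  have := hmono.tendsto_nhdsGT (0 : ℝ)
  have h2 : sInf (Vmesh a b L f '' Ioi 0) = W a b L f := by
    rw [sInf_image]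
    rfl
  rwa [h2] at this

section proof

variable {a b : ℝ} {L : ℕ → ℝ} {f : ℝ → ℝ}

/-- Any finite sequence of non-overlapping intervals, in any order. -/
lemma unsorted (hab : a ≤ b) (hL : IsLambdaSeq L) (n : ℕ) (s t : ℕ → ℝ)
    (h1 : ∀ i < n, a ≤ s i) (h2 : ∀ i < n, s i ≤ t i) (h3 : ∀ i < n, t i ≤ b)
    (h4 : ∀ i < n, ∀ j < n, i ≠ j → Disjoint (Ioo (s i) (t i)) (Ioo (s j) (t j))) :
    ENNReal.ofReal (∑ i ∈ range n, |f (t i) - f (s i)| / L i) ≤ V a b L f := by
  classical
  obtain ⟨hmono, hpos, -⟩ := hL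
  set g : Fin n → ℝ := fun i => |f (t i) - f (s i)| with hg
  set π : Equiv.Perm (Fin n) := Tuple.sort (fun i => - g i) with hπ
  have hsort : Antitone (g ∘ π) := by
    intro i j hij
    have := Tuple.monotone_sort (fun i => - g i) hij
    simp only [Function.comp] at this ⊢
    linarith
  set s' : ℕ → ℝ := fun i => if h : i < n then s (π ⟨i, h⟩) else a with hs'
  set t' : ℕ → ℝ := fun i => if h : i < n then t (π ⟨i, h⟩) else a with ht'
  have hs1 : ∀ i (h : i < n), s' i = s (π ⟨i, h⟩) := fun i h => by simp [hs', h]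
  have ht1 : ∀ i (h : i < n), t' i = t (π ⟨i, h⟩) := fun i h => by simp [ht', h]
  have hs2 : ∀ i, ¬ i < n → s' i = a := fun i h => by simp [hs', h]
  have ht2 : ∀ i, ¬ i < n → t' i = a := fun i h => by simp [ht', h]
  have hfam : IsFamily a b f s' t' := by
    refine ⟨?_, ?_, ?_, ?_, ?_⟩
    · intro i
      by_cases h : i < n
      · rw [hs1 i h]; exact h1 _ (Fin.is_lt _)
      · rw [hs2 i h]
    · intro i
      by_cases h : i < n
      · rw [hs1 i h, ht1 i h]; exact h2 _ (Fin.is_lt _)
      · rw [hs2 i h, ht2 i h]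
    · intro i
      by_cases h : i < n
      · rw [ht1 i h]; exact h3 _ (Fin.is_lt _)
      · rw [ht2 i h]; exact hab
    · intro i j hij
      by_cases hi : i < n
      · by_cases hj : j < n
        · rw [hs1 i hi, ht1 i hi, hs1 j hj, ht1 j hj]
          refine h4 _ (Fin.is_lt _) _ (Fin.is_lt _) ?_
          intro h
          have h5 : π ⟨i, hi⟩ = π ⟨j, hj⟩ := Fin.ext h
          have h6 := π.injective h5
          exact hij (Fin.mk.inj_iff.mp h6)
        · rw [hs2 j hj, ht2 j hj]; simp
      · rw [hs2 i hi, ht2 i hi]; simp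
    · intro i j hij
      by_cases hj : j < n
      · have hi : i < n := lt_of_le_of_lt hij hj
        have := hsort (show (⟨i, hi⟩ : Fin n) ≤ ⟨j, hj⟩ from hij)
        simp only [Function.comp, hg] at this
        simp only [hs1 i hi, ht1 i hi, hs1 j hj, ht1 j hj]
        exact this
      · simp only [hs2 j hj, ht2 j hj, sub_self, abs_zero]
        exact abs_nonneg _
  have hmv : Monovary (g ∘ π) (fun i : Fin n => 1 / L i) := by
    apply Antitone.monovary hsort
    intro i j hij
    exact one_div_le_one_div_of_le (hpos _) (hmono hij)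
  have hre : ∑ i ∈ range n, |f (t i) - f (s i)| / L i ≤ ∑ i : Fin n, g (π i) * (1 / L i) := by
    have e1 : ∑ i ∈ range n, |f (t i) - f (s i)| / L i = ∑ i : Fin n, g i * (1 / L i) := by
      rw [Finset.sum_range]
      refine Finset.sum_congr rfl fun i _ => ?_
      simp [hg, div_eq_mul_inv]
    have e2 : ∑ i : Fin n, g i * (1 / L i) = ∑ i : Fin n, g (π i) * (1 / L (π i)) :=
      (Equiv.sum_comp π (fun i : Fin n => g i * (1 / L i))).symm
    rw [e1, e2]
    have := hmv.sum_mul_comp_perm_le_sum_mul (σ := π)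
    simpa [Function.comp] using this
  have hle : ENNReal.ofReal (∑ i : Fin n, g (π i) * (1 / L i)) ≤ sigma L f s' t' := by
    have e3 : ∑ i : Fin n, g (π i) * (1 / L i) = ∑ i ∈ range n, |f (t' i) - f (s' i)| / L i := by
      rw [Finset.sum_range]
      refine Finset.sum_congr rfl fun i _ => ?_
      rw [hs1 i i.2, ht1 i i.2]
      simp [hg, div_eq_mul_inv]
    rw [e3, ENNReal.ofReal_sum_of_nonneg (fun i _ => div_nonneg (abs_nonneg _) (hpos i).le)]
    exact ENNReal.sum_le_tsum _
  refine (ENNReal.ofReal_le_ofReal hre).trans (hle.trans ?_)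
  exact le_iSup_of_le s' (le_iSup_of_le t' (le_iSup_of_le hfam le_rfl))


/-- A fine family almost exhausting the Λ-variation, when `W = V`. -/
lemma exists_fine (hL : IsLambdaSeq L) (hab : a ≤ b) (hW : W a b L f = V a b L f) {δ ε : ℝ} (hδ : 0 < δ) (hε : 0 < ε) :
    ∃ (n : ℕ) (s t : ℕ → ℝ), IsFamily a b f s t ∧ (∀ i, t i - s i ≤ δ) ∧
      (V a b L f).toReal - ε < ∑ i ∈ range n, |f (t i) - f (s i)| / L i := by
  by_contra hcon
  push Not at hcon
  have hdeg : IsFamily a b f (fun _ => a) (fun _ => a) :=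
    ⟨fun _ => le_rfl, fun _ => le_rfl, fun _ => hab, fun _ _ _ => by simp,
      fun _ _ _ => by simp⟩
  have h0 : (0 : ℝ) ≤ (V a b L f).toReal - ε := by
    have := hcon 0 _ _ hdeg (fun i => by simpa using hδ.le)
    simpa using this
  have hm : Vmesh a b L f δ ≤ ENNReal.ofReal ((V a b L f).toReal - ε) := by
    unfold Vmesh
    refine iSup_le fun s => iSup_le fun t => iSup_le fun hst => iSup_le fun hmesh => ?_
    unfold sigma
    rw [ENNReal.tsum_eq_iSup_nat]
    refine iSup_le fun n => ?_
    rw [← ENNReal.ofReal_sum_of_nonneg (fun i _ => div_nonneg (abs_nonneg _) (hL.2.1 i).le)]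
    exact ENNReal.ofReal_le_ofReal (hcon n s t hst hmesh)
  have h1 : W a b L f ≤ ENNReal.ofReal ((V a b L f).toReal - ε) := by
    refine le_trans ?_ hm
    exact iInf_le_of_le δ (iInf_le_of_le hδ le_rfl)
  rw [hW] at h1
  have h2 := ENNReal.toReal_mono ENNReal.ofReal_ne_top h1
  rw [ENNReal.toReal_ofReal h0] at h2
  linarith

lemma unsorted_real (hab : a ≤ b) (hL : IsLambdaSeq L) (hV : V a b L f < ⊤) (n : ℕ) (s t : ℕ → ℝ)
    (h1 : ∀ i < n, a ≤ s i) (h2 : ∀ i < n, s i ≤ t i) (h3 : ∀ i < n, t i ≤ b)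
    (h4 : ∀ i < n, ∀ j < n, i ≠ j → Disjoint (Ioo (s i) (t i)) (Ioo (s j) (t j))) :
    ∑ i ∈ range n, |f (t i) - f (s i)| / L i ≤ (V a b L f).toReal := by
  have h := unsorted (f := f) hab hL n s t h1 h2 h3 h4
  have h5 := ENNReal.toReal_mono hV.ne h
  rwa [ENNReal.toReal_ofReal] at h5
  exact Finset.sum_nonneg fun i _ => div_nonneg (abs_nonneg _) (hL.2.1 i).le

/-- at most one interval of a non-overlapping family contains a given point in its interior -/
lemma sum_point_le (hL : IsLambdaSeq L) {s t : ℕ → ℝ} {η : ℝ} (hη : 0 ≤ η)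
    (hd : ∀ i j, i ≠ j → Disjoint (Ioo (s i) (t i)) (Ioo (s j) (t j)))
    (hf : ∀ i, |f (t i) - f (s i)| ≤ η) (n : ℕ) (x : ℝ) :
    ∑ i ∈ (range n).filter (fun i => x ∈ Ioo (s i) (t i)), |f (t i) - f (s i)| / L i ≤
      η / L 0 := by
  classical
  have hpos := hL.2.1
  rcases ((range n).filter (fun i => x ∈ Ioo (s i) (t i))).eq_empty_or_nonempty with h | ⟨k, hk⟩
  · rw [h, Finset.sum_empty]
    exact div_nonneg hη (hpos 0).le
  · have : (range n).filter (fun i => x ∈ Ioo (s i) (t i)) = {k} := by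
      ext i
      rw [Finset.mem_singleton]
      constructor
      · intro hi
        by_contra hne
        exact Set.disjoint_left.mp (hd i k hne) (Finset.mem_filter.mp hi).2
          (Finset.mem_filter.mp hk).2
      · rintro rfl
        exact hk
    rw [this, Finset.sum_singleton]
    calc |f (t k) - f (s k)| / L k ≤ η / L k := by
          exact div_le_div_of_nonneg_right (hf k) (hpos k).le
      _ ≤ η / L 0 := div_le_div_of_nonneg_left hη (hpos 0) (hL.1 (Nat.zero_le k))

lemma telescoping (hL : IsLambdaSeq L) {η : ℝ} (hη : 0 ≤ η) {g : ℕ → ℝ} (hg0 : ∀ i, 0 ≤ g i)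
    (hg : ∀ i, g i ≤ η) (n : ℕ) (P : ℕ → Prop) [DecidablePred P] :
    ∑ i ∈ (range n).filter P, g i / L i ≤
      ∑ i ∈ (range n).filter P, g i / L (i + 1) + η / L 0 := by
  have hpos := hL.2.1
  have hdiff : ∀ i, g i / L i - g i / L (i + 1) ≤ η * (1 / L i - 1 / L (i + 1)) := by
    intro i
    have h1 : 0 ≤ 1 / L i - 1 / L (i + 1) := by
      have := one_div_le_one_div_of_le (hpos i) (hL.1 (Nat.le_succ i))
      linarith
    calc g i / L i - g i / L (i + 1) = g i * (1 / L i - 1 / L (i + 1)) := by ring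
      _ ≤ η * (1 / L i - 1 / L (i + 1)) := mul_le_mul_of_nonneg_right (hg i) h1
  have hnn : ∀ i, 0 ≤ g i / L i - g i / L (i + 1) := by
    intro i
    have := div_le_div_of_nonneg_left (hg0 i) (hpos i) (hL.1 (Nat.le_succ i))
    linarith
  have h1 : ∑ i ∈ (range n).filter P, (g i / L i - g i / L (i + 1)) ≤
      ∑ i ∈ range n, (g i / L i - g i / L (i + 1)) :=
    Finset.sum_le_sum_of_subset_of_nonneg (Finset.filter_subset _ _) (fun i _ _ => hnn i)
  have h2 : ∑ i ∈ range n, (g i / L i - g i / L (i + 1)) ≤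
      ∑ i ∈ range n, η * (1 / L i - 1 / L (i + 1)) := Finset.sum_le_sum fun i _ => hdiff i
  have h3 : ∑ i ∈ range n, η * (1 / L i - 1 / L (i + 1)) = η * (1 / L 0 - 1 / L n) := by
    rw [← Finset.mul_sum, Finset.sum_range_sub']
  have h4 : η * (1 / L 0 - 1 / L n) ≤ η / L 0 := by
    have : 0 ≤ η * (1 / L n) := mul_nonneg hη (one_div_nonneg.mpr (hpos n).le)
    have e : η / L 0 = η * (1 / L 0) := by ring
    rw [e, mul_sub]
    linarith
  rw [Finset.sum_sub_distrib] at h1
  linarith

/-- The increment over one interval is dominated by the part of a fine family inside it. -/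
lemma one_interval (hab : a ≤ b) (hL : IsLambdaSeq L) (hV : V a b L f < ⊤) {s t : ℕ → ℝ}
    (hfam : IsFamily a b f s t) {η ε : ℝ} (hη : 0 ≤ η)
    (hf : ∀ i, |f (t i) - f (s i)| ≤ η) (n : ℕ)
    (hn : (V a b L f).toReal - ε < ∑ i ∈ range n, |f (t i) - f (s i)| / L i)
    {c d : ℝ} (hac : a ≤ c) (hcd : c ≤ d) (hdb : d ≤ b) :
    |f d - f c| / L 0 ≤ ε + 3 * (η / L 0) +
      ∑ i ∈ (range n).filter (fun i => s i < t i ∧ c ≤ s i ∧ t i ≤ d),
        |f (t i) - f (s i)| / L i := by
  classical
  have hpos := hL.2.1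
  set P : ℕ → Prop := fun i => Disjoint (Ioo (s i) (t i)) (Ioo c d) with hP
  set G : ℕ → ℝ := fun i => |f (t i) - f (s i)| with hG
  have hG0 : ∀ i, 0 ≤ G i := fun i => abs_nonneg _
  -- the modified family
  have hnew : |f d - f c| / L 0 + ∑ i ∈ (range n).filter P, G i / L (i + 1) ≤
      (V a b L f).toReal := by
    set s' : ℕ → ℝ := fun i => if i = 0 then c else if P (i - 1) then s (i - 1) else a with hs'
    set t' : ℕ → ℝ := fun i => if i = 0 then d else if P (i - 1) then t (i - 1) else a with ht'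
    have e0s : s' 0 = c := by simp [hs']
    have e0t : t' 0 = d := by simp [ht']
    have es : ∀ i, s' (i + 1) = if P i then s i else a := fun i => by simp [hs']
    have et : ∀ i, t' (i + 1) = if P i then t i else a := fun i => by simp [ht']
    have h := unsorted_real (f := f) hab hL hV (n + 1) s' t' ?_ ?_ ?_ ?_
    · rw [Finset.sum_range_succ', e0s, e0t] at h
      have e1 : ∑ i ∈ range n, |f (t' (i + 1)) - f (s' (i + 1))| / L (i + 1) =
          ∑ i ∈ (range n).filter P, G i / L (i + 1) := by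
        rw [Finset.sum_filter]
        refine Finset.sum_congr rfl fun i _ => ?_
        rw [es, et]
        by_cases hi : P i
        · rw [if_pos hi, if_pos hi, if_pos hi]
        · rw [if_neg hi, if_neg hi, if_neg hi]
          simp
      rw [e1] at h
      linarith
    · intro i _
      rcases i with _ | i
      · rw [e0s]; exact hac
      · rw [es]; split_ifs
        · exact hfam.left i
        · exact le_rfl
    · intro i _
      rcases i with _ | i
      · rw [e0s, e0t]; exact hcd
      · rw [es, et]; split_ifs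
        · exact hfam.le i
        · exact le_rfl
    · intro i _
      rcases i with _ | i
      · rw [e0t]; exact hdb
      · rw [et]; split_ifs
        · exact hfam.right i
        · exact hab
    · intro i _ j _ hij
      rcases i with _ | i
      · rcases j with _ | j
        · exact absurd rfl hij
        · rw [e0s, e0t, es, et]
          split_ifs with h
          · exact h.symm
          · simp
      · rcases j with _ | j
        · rw [e0s, e0t, es, et]
          split_ifs with h
          · exact h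
          · simp
        · rw [es, et, es, et]
          split_ifs
          · exact hfam.disj i j (fun h => hij (by rw [h]))
          · simp
          · simp
          · simp
  have htel := telescoping hL hη hG0 hf n P
  have hsplit : ∑ i ∈ range n, G i / L i = ∑ i ∈ (range n).filter P, G i / L i +
      ∑ i ∈ (range n).filter (fun i => ¬ P i), G i / L i :=
    (Finset.sum_filter_add_sum_filter_not _ _ _).symm
  have hcover : (range n).filter (fun i => ¬ P i) ⊆
      ((range n).filter (fun i => s i < t i ∧ c ≤ s i ∧ t i ≤ d) ∪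
        (range n).filter (fun i => c ∈ Ioo (s i) (t i))) ∪
        (range n).filter (fun i => d ∈ Ioo (s i) (t i)) := by
    intro i hi
    rw [Finset.mem_filter] at hi
    obtain ⟨hin, hi⟩ := hi
    rw [hP, Set.not_disjoint_iff] at hi
    obtain ⟨x, ⟨hx1, hx2⟩, hx3, hx4⟩ := hi
    simp only [Finset.mem_union, Finset.mem_filter, Set.mem_Ioo]
    by_cases h1 : s i < c
    · exact Or.inl (Or.inr ⟨hin, h1, by linarith⟩)
    · by_cases h2 : d < t i
      · exact Or.inr ⟨hin, by linarith, h2⟩
      · exact Or.inl (Or.inl ⟨hin, by linarith, by linarith, by linarith⟩)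
  have hnn : ∀ i, 0 ≤ G i / L i := fun i => div_nonneg (hG0 i) (hpos i).le
  have hb : ∑ i ∈ (range n).filter (fun i => ¬ P i), G i / L i ≤
      ∑ i ∈ (range n).filter (fun i => s i < t i ∧ c ≤ s i ∧ t i ≤ d), G i / L i +
      η / L 0 + η / L 0 := by
    have h1 := Finset.sum_le_sum_of_subset_of_nonneg hcover (fun i _ _ => hnn i)
    have h2 : ∀ (A B : Finset ℕ), ∑ i ∈ A ∪ B, G i / L i ≤
        ∑ i ∈ A, G i / L i + ∑ i ∈ B, G i / L i := by
      intro A B
      rw [← Finset.sum_union_inter]
      have : 0 ≤ ∑ i ∈ A ∩ B, G i / L i := Finset.sum_nonneg fun i _ => hnn i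
      linarith
    have h3 := h2 ((range n).filter (fun i => s i < t i ∧ c ≤ s i ∧ t i ≤ d) ∪
        (range n).filter (fun i => c ∈ Ioo (s i) (t i)))
        ((range n).filter (fun i => d ∈ Ioo (s i) (t i)))
    have h4 := h2 ((range n).filter (fun i => s i < t i ∧ c ≤ s i ∧ t i ≤ d))
        ((range n).filter (fun i => c ∈ Ioo (s i) (t i)))
    have h5 := sum_point_le (f := f) hL hη hfam.disj hf n c
    have h6 := sum_point_le (f := f) hL hη hfam.disj hf n d
    simp only [hG] at h1 h3 h4 ⊢
    linarith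
  simp only [hG] at hnew htel hsplit hb ⊢
  linarith

/-- `f` has bounded variation: `∑ |f(J_j)| ≤ λ_0 V_Λ(f)` for non-overlapping `J_j`. -/
lemma bounded_variation (hab : a ≤ b) (hL : IsLambdaSeq L) (hc : ContinuousOn f (Icc a b))
    (hV : V a b L f < ⊤) (hW : W a b L f = V a b L f) (p : ℕ) (c d : ℕ → ℝ)
    (h1 : ∀ i < p, a ≤ c i) (h2 : ∀ i < p, c i ≤ d i) (h3 : ∀ i < p, d i ≤ b)
    (h4 : ∀ i < p, ∀ j < p, i ≠ j → Disjoint (Ioo (c i) (d i)) (Ioo (c j) (d j))) :
    ∑ j ∈ range p, |f (d j) - f (c j)| ≤ L 0 * (V a b L f).toReal := by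
  classical
  have hpos := hL.2.1
  have huc : UniformContinuousOn f (Icc a b) :=
    isCompact_Icc.uniformContinuousOn_of_continuous hc
  have key : ∀ ε : ℝ, 0 < ε → ∑ j ∈ range p, |f (d j) - f (c j)| / L 0 ≤
      (V a b L f).toReal + p * (ε + 3 * (ε / L 0)) := by
    intro ε hε
    obtain ⟨δ, hδ, hmod⟩ := Metric.uniformContinuousOn_iff.mp huc ε hε
    obtain ⟨n, s, t, hfam, hmesh, hn⟩ := exists_fine hL hab hW (half_pos hδ) hε
    have hf : ∀ i, |f (t i) - f (s i)| ≤ ε := by
      intro i
      have ha := hfam.left i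
      have hb := hfam.right i
      have hle := hfam.le i
      have := hmod (t i) ⟨ha.trans hle, hb⟩ (s i) ⟨ha, hle.trans hb⟩ (by
        rw [Real.dist_eq, abs_of_nonneg (by linarith)]
        have := hmesh i
        linarith)
      rw [Real.dist_eq] at this
      exact this.le
    set A : ℕ → Finset ℕ := fun j =>
      (range n).filter (fun i => s i < t i ∧ c j ≤ s i ∧ t i ≤ d j) with hA
    have hj : ∀ j ∈ range p, |f (d j) - f (c j)| / L 0 ≤ ε + 3 * (ε / L 0) +
        ∑ i ∈ A j, |f (t i) - f (s i)| / L i := by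
      intro j hj
      have hj' := Finset.mem_range.mp hj
      exact one_interval hab hL hV hfam hε.le hf n hn (h1 j hj') (h2 j hj') (h3 j hj')
    have hsum := Finset.sum_le_sum hj
    rw [Finset.sum_add_distrib, Finset.sum_const, Finset.card_range, nsmul_eq_mul] at hsum
    have hdisj : ∀ i ∈ range p, ∀ j ∈ range p, i ≠ j → Disjoint (A i) (A j) := by
      intro i hi j hj hij
      rw [Finset.disjoint_left]
      intro k hki hkj
      simp only [hA, Finset.mem_filter] at hki hkj
      have h5 := h4 i (Finset.mem_range.mp hi) j (Finset.mem_range.mp hj) hij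
      have hx : (s k + t k) / 2 ∈ Ioo (c i) (d i) := by
        obtain ⟨-, e1, e2, e3⟩ := hki
        constructor <;> linarith
      have hy : (s k + t k) / 2 ∈ Ioo (c j) (d j) := by
        obtain ⟨-, e1, e2, e3⟩ := hkj
        constructor <;> linarith
      exact Set.disjoint_left.mp h5 hx hy
    have hbU : ∑ j ∈ range p, ∑ i ∈ A j, |f (t i) - f (s i)| / L i ≤ (V a b L f).toReal := by
      rw [← Finset.sum_biUnion hdisj]
      refine le_trans (Finset.sum_le_sum_of_subset_of_nonneg (t := range n) ?_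
        (fun i _ _ => div_nonneg (abs_nonneg _) (hpos i).le)) ?_
      · intro i hi
        obtain ⟨j, -, hj⟩ := Finset.mem_biUnion.mp hi
        exact (Finset.mem_filter.mp hj).1
      · exact unsorted_real hab hL hV n s t (fun i _ => hfam.left i) (fun i _ => hfam.le i)
          (fun i _ => hfam.right i) (fun i _ j _ hij => hfam.disj i j hij)
    linarith
  have hlim : ∑ j ∈ range p, |f (d j) - f (c j)| / L 0 ≤ (V a b L f).toReal := by
    refine le_of_forall_pos_lt_add fun e he => ?_
    have hp0 : (0 : ℝ) ≤ p := Nat.cast_nonneg p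
    have hden : 0 < (p + 1 : ℝ) * (1 + 3 / L 0) := by
      have := hpos 0
      positivity
    have hlt := key (e / ((p + 1 : ℝ) * (1 + 3 / L 0))) (div_pos he hden)
    refine hlt.trans_lt ?_
    have h5 : (p : ℝ) * (e / ((p + 1 : ℝ) * (1 + 3 / L 0)) +
        3 * (e / ((p + 1 : ℝ) * (1 + 3 / L 0)) / L 0)) = e * (p / (p + 1)) := by
      have h0 := hpos 0
      have h6 : (1 + 3 / L 0) ≠ 0 := by positivity
      have h7 : (p + 1 : ℝ) ≠ 0 := by positivity
      field_simp
    rw [h5]
    have h6 : (p : ℝ) / (p + 1) < 1 := by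
      rw [div_lt_one (by positivity)]
      linarith
    have := mul_lt_mul_of_pos_left h6 he
    linarith
  rw [← Finset.sum_div, div_le_iff₀ (hpos 0)] at hlim
  linarith

/-- If `W = V` is finite and `f` is continuous, then `V = 0`. -/
lemma V_eq_zero (hab : a ≤ b) (hL : IsLambdaSeq L) (hp : IsProper L)
    (hc : ContinuousOn f (Icc a b)) (hV : V a b L f < ⊤) (hW : W a b L f = V a b L f) :
    V a b L f = 0 := by
  classical
  have hpos := hL.2.1
  set v := (V a b L f).toReal with hv
  have hv0 : 0 ≤ v := ENNReal.toReal_nonneg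
  have huc : UniformContinuousOn f (Icc a b) :=
    isCompact_Icc.uniformContinuousOn_of_continuous hc
  have key : ∀ e : ℝ, 0 < e → W a b L f ≤ ENNReal.ofReal e := by
    intro e he
    -- choose `m`
    obtain ⟨m, hm⟩ := (hp.eventually_ge_atTop (2 * (L 0 * v + 1) / e)).exists
    have hm' : L 0 * v / L m ≤ e / 2 := by
      rw [div_le_iff₀ (hpos m)]
      have h1 : 2 * (L 0 * v + 1) ≤ L m * e := by
        rwa [div_le_iff₀ he] at hm
      linarith
    set η : ℝ := e * L 0 / (2 * (m + 1)) with hη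
    have hη0 : 0 < η := by
      have := hpos 0
      positivity
    obtain ⟨δ, hδ, hmod⟩ := Metric.uniformContinuousOn_iff.mp huc η hη0
    refine (iInf_le_of_le (δ / 2) (iInf_le_of_le (half_pos hδ) le_rfl)).trans ?_
    unfold Vmesh
    refine iSup_le fun s => iSup_le fun t => iSup_le fun hfam => iSup_le fun hmesh => ?_
    have hf : ∀ i, |f (t i) - f (s i)| ≤ η := by
      intro i
      have ha := hfam.left i
      have hb := hfam.right i
      have hle := hfam.le i
      have := hmod (t i) ⟨ha.trans hle, hb⟩ (s i) ⟨ha, hle.trans hb⟩ (by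
        rw [Real.dist_eq, abs_of_nonneg (by linarith)]
        have := hmesh i
        linarith)
      rw [Real.dist_eq] at this
      exact this.le
    unfold sigma
    rw [ENNReal.tsum_eq_iSup_nat]
    refine iSup_le fun n => ?_
    rw [← ENNReal.ofReal_sum_of_nonneg (fun i _ => div_nonneg (abs_nonneg _) (hpos i).le)]
    apply ENNReal.ofReal_le_ofReal
    have hterm : ∀ i ∈ range n, |f (t i) - f (s i)| / L i ≤
        (if i < m then η / L 0 else 0) + |f (t i) - f (s i)| / L m := by
      intro i _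
      by_cases h : i < m
      · rw [if_pos h]
        have h1 : |f (t i) - f (s i)| / L i ≤ η / L 0 :=
          (div_le_div_of_nonneg_right (hf i) (hpos i).le).trans
            (div_le_div_of_nonneg_left hη0.le (hpos 0) (hL.1 (Nat.zero_le i)))
        have h2 : 0 ≤ |f (t i) - f (s i)| / L m := div_nonneg (abs_nonneg _) (hpos m).le
        linarith
      · rw [if_neg h, zero_add]
        exact div_le_div_of_nonneg_left (abs_nonneg _) (hpos m) (hL.1 (not_lt.mp h))
    have h1 := Finset.sum_le_sum hterm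
    rw [Finset.sum_add_distrib, ← Finset.sum_div] at h1
    have h2 : ∑ i ∈ range n, (if i < m then η / L 0 else 0) ≤ m * (η / L 0) := by
      rw [← Finset.sum_filter, Finset.sum_const, nsmul_eq_mul]
      apply mul_le_mul_of_nonneg_right _ (div_nonneg hη0.le (hpos 0).le)
      have h3 : (range n).filter (fun i => i < m) ⊆ range m := by
        intro i hi
        exact Finset.mem_range.mpr (Finset.mem_filter.mp hi).2
      have h4 := Finset.card_le_card h3
      rw [Finset.card_range] at h4
      exact_mod_cast h4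
    have h3 := bounded_variation hab hL hc hV hW n s t (fun i _ => hfam.left i)
      (fun i _ => hfam.le i) (fun i _ => hfam.right i) (fun i _ j _ hij => hfam.disj i j hij)
    have h4 : (∑ i ∈ range n, |f (t i) - f (s i)|) / L m ≤ e / 2 :=
      (div_le_div_of_nonneg_right h3 (hpos m).le).trans hm'
    have h5 : (m : ℝ) * (η / L 0) ≤ e / 2 := by
      have h0 := (hpos 0).ne'
      have : (m : ℝ) * (η / L 0) = e / 2 * (m / (m + 1)) := by
        rw [hη]
        field_simp
      rw [this]
      have h6 : (m : ℝ) / (m + 1) ≤ 1 := by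
        rw [div_le_one (by positivity)]
        linarith
      have := mul_le_mul_of_nonneg_left h6 (half_pos he).le
      linarith
    linarith
  rw [← hW]
  refine le_antisymm ?_ bot_le
  refine le_of_forall_pos_le_add fun e he => ?_
  rw [zero_add]
  by_cases htop : e = ⊤
  · rw [htop]; exact le_top
  · have := key e.toReal (ENNReal.toReal_pos he.ne' htop)
    rwa [ENNReal.ofReal_toReal htop] at this

/-- For a proper Λ-sequence there is no Λ-singular function. -/
theorem not_singular (hab : a ≤ b) (hL : IsLambdaSeq L) (hp : IsProper L) (f : ℝ → ℝ) :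
    ¬ IsSingular a b L f := by
  rintro ⟨⟨hc, hV⟩, hac, hW⟩
  have h0 := V_eq_zero hab hL hp hc hV hW
  apply hac
  refine ⟨hc, hV, ?_⟩
  have h1 : ∀ m : ℕ, V a b (fun i => L (i + m)) f = 0 := by
    intro m
    refine le_antisymm ?_ bot_le
    rw [← h0]
    unfold V
    refine iSup_mono fun s => iSup_mono fun t => iSup_mono fun h => ?_
    unfold sigma
    refine ENNReal.tsum_le_tsum fun i => ENNReal.ofReal_le_ofReal ?_
    exact div_le_div_of_nonneg_left (abs_nonneg _) (hL.2.1 i) (hL.1 (Nat.le_add_right i m))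
  simp_rw [h1]
  exact tendsto_const_nhds

end proof

/-- **Main theorem.** For every proper Λ-sequence `L` and every interval `[a, b]` there is no
Λ-singular function on `[a, b]`, whatever the Shao-Sablin index is. Consequently (second part) the
decomposition statement of Q1 holds for every proper Λ-sequence with Shao-Sablin index `2` that
admits a Λ-singular function: there is no such Λ-sequence. -/
theorem result :
    (∀ (L : ℕ → ℝ), IsLambdaSeq L → IsProper L → ∀ a b : ℝ, a < b →
      ∀ f : ℝ → ℝ, ¬ IsSingular a b L f) ∧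
    (∀ (L : ℕ → ℝ), IsLambdaSeq L → IsProper L → shaoSablin L = 2 → ∀ a b : ℝ, a < b →
      (∃ g : ℝ → ℝ, IsSingular a b L g) → ∀ f : ℝ → ℝ, MemBV a b L f →
        ∃ fs fac fj : ℝ → ℝ, (∀ x ∈ Icc a b, f x = fs x + fac x + fj x) ∧
          (IsSingular a b L fs ∨ ∃ C : ℝ, ∀ x ∈ Icc a b, fs x = C) ∧
          MemAC a b L fac ∧ MemBVc a b L fj ∧
          V a b L f = V a b L fs + V a b L fac + W a b L fj) := by
  refine ⟨fun L hL hp a b hab f => not_singular hab.le hL hp f, ?_⟩
  rintro L hL hp - a b hab ⟨g, hg⟩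
  exact absurd hg (not_singular hab.le hL hp g)

end Pool.Agent.Results.MP_2872ab_an.NoSingular
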